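import Pool.Agent.helper47.SPI.Spec

/-!
# MP_f6e9a2_nt, row spi:CO4: dilation of the core inequality
-/

set_option autoImplicit false

namespace Pool.Agent.SPI

open Finset Pool.Agent.helper85.PG

/-- **CO4**. -/
theorem CO4 (hCO3 : CO3_stmt) : CO4_stmt := by
  intro η hη
  obtain ⟨δ, p₀, hδ, h⟩ := hCO3 η hη
  refine ⟨δ, p₀, hδ, ?_⟩
  intro p _ hp A B s ζ₁ ζ₂ M χ α β h1 h2 hM hA hB hχ hα hβ
  have hinj : Function.Injective fun x : ZMod p => ζ₁ * x := fun x y hxy => mul_left_cancel₀ h1 hxy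
  have key := h p hp (A.image fun x => ζ₁ * x) (B.image fun x => ζ₁ * x) (ζ₁ * s) (ζ₂ / ζ₁) M χ
    (fun x => α (ζ₁⁻¹ * x)) (fun x => β (ζ₁⁻¹ * x)) (div_ne_zero h2 h1) hM
    (by
      intro a ha
      obtain ⟨x, hx, rfl⟩ := Finset.mem_image.mp ha
      exact hA x hx)
    (by
      intro b hb
      obtain ⟨x, hx, rfl⟩ := Finset.mem_image.mp hb
      have e : ζ₂ / ζ₁ * (ζ₁ * x) = ζ₂ * x := by
        field_simp
      rw [e]
      exact hB x hx) hχ (fun a => hα _) (fun b => hβ _)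
  rw [Finset.sum_image (fun x _ y _ hxy => hinj hxy), Finset.card_image_of_injective _ hinj,
    Finset.card_image_of_injective _ hinj] at key
  have e1 : ∑ a ∈ A, ∑ b ∈ B.image fun x => ζ₁ * x, α (ζ₁⁻¹ * (ζ₁ * a)) * β (ζ₁⁻¹ * b) *
      χ (ζ₁ * a + b + ζ₁ * s) = χ ζ₁ * ∑ a ∈ A, ∑ b ∈ B, α a * β b * χ (a + b + s) := by
    rw [Finset.mul_sum]
    refine Finset.sum_congr rfl fun a _ => ?_
    rw [Finset.sum_image (fun x _ y _ hxy => hinj hxy), Finset.mul_sum]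
    refine Finset.sum_congr rfl fun b _ => ?_
    have e2 : ζ₁ * a + ζ₁ * b + ζ₁ * s = ζ₁ * (a + b + s) := by ring
    rw [inv_mul_cancel_left₀ h1, inv_mul_cancel_left₀ h1, e2, map_mul]
    ring
  have e3 : ‖χ ζ₁‖ = 1 := by
    have hu : IsUnit ζ₁ := isUnit_iff_ne_zero.mpr h1
    have hpos : 0 < Fintype.card (ZMod p)ˣ := Fintype.card_pos
    have e4 : χ ζ₁ ^ Fintype.card (ZMod p)ˣ = 1 := by
      rw [← map_pow]
      have : ζ₁ ^ Fintype.card (ZMod p)ˣ = 1 := by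
        obtain ⟨u, rfl⟩ := hu
        rw [← Units.val_pow_eq_pow_val, pow_card_eq_one, Units.val_one]
      rw [this, map_one]
    have e5 : ‖χ ζ₁‖ ^ Fintype.card (ZMod p)ˣ = 1 := by
      rw [← norm_pow, e4, norm_one]
    exact (pow_eq_one_iff_of_nonneg (norm_nonneg _) hpos.ne').mp e5
  rw [e1, norm_mul, e3, one_mul] at key
  exact key

end Pool.Agent.SPI
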